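import Mathlib

/-!
Integer polynomials with small coefficients at a large integer: domination of coefficients, size of
the value, size of the value of a factor.
-/

set_option autoImplicit false

namespace Pool.Agent.X5.SD

open Polynomial Finset

/-- the absolute values of the coefficients of `f` are at most the coefficients of `F` -/
def Dm (f F : ℤ[X]) : Prop := ∀ i, |f.coeff i| ≤ F.coeff i

theorem Dm.nonneg {f F : ℤ[X]} (h : Dm f F) (i : ℕ) : 0 ≤ F.coeff i := (abs_nonneg _).trans (h i)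

theorem Dm.add {f F g G : ℤ[X]} (h : Dm f F) (h' : Dm g G) : Dm (f + g) (F + G) := by
  intro i
  rw [coeff_add, coeff_add]
  exact (abs_add_le _ _).trans (add_le_add (h i) (h' i))

theorem Dm.neg {f F : ℤ[X]} (h : Dm f F) : Dm (-f) F := by
  intro i
  rw [coeff_neg, abs_neg]
  exact h i

theorem Dm.mul {f F g G : ℤ[X]} (h : Dm f F) (h' : Dm g G) : Dm (f * g) (F * G) := by
  intro i
  rw [coeff_mul, coeff_mul]
  refine (abs_sum_le_sum_abs _ _).trans (sum_le_sum fun p _ => ?_)
  rw [abs_mul]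
  exact mul_le_mul (h _) (h' _) (abs_nonneg _) (h.nonneg _)

theorem Dm.one : Dm 1 1 := by
  intro i
  rw [coeff_one]
  split_ifs <;> simp

theorem Dm.pow {f F : ℤ[X]} (h : Dm f F) (n : ℕ) : Dm (f ^ n) (F ^ n) := by
  induction n with
  | zero => simpa using Dm.one
  | succ n ih => rw [pow_succ, pow_succ]; exact ih.mul h

theorem Dm.const (c : ℤ) : Dm (C c) (C |c|) := by
  intro i
  rw [coeff_C, coeff_C]
  split_ifs <;> simp

theorem Dm.monomial (c : ℤ) (k : ℕ) : Dm (C c * X ^ k) (C |c| * X ^ k) := by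
  intro i
  rw [coeff_C_mul_X_pow, coeff_C_mul_X_pow]
  split_ifs <;> simp

theorem Dm.sum {ι : Type*} (s : Finset ι) {f F : ι → ℤ[X]} (h : ∀ i ∈ s, Dm (f i) (F i)) :
    Dm (∑ i ∈ s, f i) (∑ i ∈ s, F i) := by
  classical
  induction s using Finset.induction_on with
  | empty => intro i; simp
  | insert a s ha ih =>
    rw [sum_insert ha, sum_insert ha]
    exact (h a (mem_insert_self a s)).add (ih fun i hi => h i (mem_insert_of_mem hi))

theorem Dm.prod {ι : Type*} (s : Finset ι) {f F : ι → ℤ[X]} (h : ∀ i ∈ s, Dm (f i) (F i)) :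
    Dm (∏ i ∈ s, f i) (∏ i ∈ s, F i) := by
  classical
  induction s using Finset.induction_on with
  | empty => simpa using Dm.one
  | insert a s ha ih =>
    rw [prod_insert ha, prod_insert ha]
    exact (h a (mem_insert_self a s)).mul (ih fun i hi => h i (mem_insert_of_mem hi))

theorem Dm.le_eval {f F : ℤ[X]} (h : Dm f F) (i : ℕ) : |f.coeff i| ≤ F.eval 1 := by
  refine (h i).trans ?_
  rw [eval_eq_sum_range]
  simp only [one_pow, mul_one]
  by_cases hi : i ≤ F.natDegree
  · exact single_le_sum (f := fun j => F.coeff j) (fun j _ => h.nonneg j) (mem_range.2 (by omega))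
  · rw [coeff_eq_zero_of_natDegree_lt (by omega)]
    exact sum_nonneg fun j _ => h.nonneg j

theorem Dm.eval_nonneg {f F : ℤ[X]} (h : Dm f F) : 0 ≤ F.eval 1 :=
  (abs_nonneg _).trans (h.le_eval 0)

theorem Dm.sum_le {f F : ℤ[X]} (h : Dm f F) (n : ℕ) : ∑ i ∈ range n, |f.coeff i| ≤ F.eval 1 := by
  have h1 : ∑ i ∈ range n, |f.coeff i| ≤ ∑ i ∈ range n, F.coeff i := sum_le_sum fun i _ => h i
  refine h1.trans ?_
  rw [eval_eq_sum_range]
  simp only [one_pow, mul_one]
  rcases Nat.le_total n (F.natDegree + 1) with h2 | h2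
  · exact sum_le_sum_of_subset_of_nonneg (range_mono h2) fun j _ _ => h.nonneg j
  · refine le_of_eq (sum_subset (range_mono h2) fun j _ hj => ?_).symm
    rw [mem_range, not_lt] at hj
    exact coeff_eq_zero_of_natDegree_lt (by omega)

/-- lower bound for the value of a polynomial with small coefficients -/
theorem eval_ge {h : ℤ[X]} {K N : ℤ} (hK : ∀ i, |h.coeff i| ≤ K) (hN : 2 * K + 1 ≤ N)
    (h0 : h ≠ 0) : N ^ h.natDegree + 1 ≤ 2 * |h.eval N| := by
  have hlc : 1 ≤ |h.coeff h.natDegree| := by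
    apply Int.one_le_abs
    rw [coeff_natDegree]
    exact leadingCoeff_ne_zero.2 h0
  have hK1 : 1 ≤ K := hlc.trans (hK _)
  have hN0 : 0 < N := by linarith
  have h1 : |∑ i ∈ range h.natDegree, h.coeff i * N ^ i| ≤ K * ∑ i ∈ range h.natDegree, N ^ i := by
    rw [mul_sum]
    refine (abs_sum_le_sum_abs _ _).trans (sum_le_sum fun i _ => ?_)
    rw [abs_mul, abs_of_pos (pow_pos hN0 i)]
    exact mul_le_mul_of_nonneg_right (hK i) (pow_pos hN0 i).le
  have h2 : (∑ i ∈ range h.natDegree, N ^ i) * (N - 1) = N ^ h.natDegree - 1 :=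
    geom_sum_mul N h.natDegree
  have h3 : 0 ≤ ∑ i ∈ range h.natDegree, N ^ i := sum_nonneg fun i _ => (pow_pos hN0 i).le
  have h4 : (∑ i ∈ range h.natDegree, N ^ i) * (2 * K) ≤ N ^ h.natDegree - 1 := by
    rw [← h2]
    exact mul_le_mul_of_nonneg_left (by linarith) h3
  have h5 : N ^ h.natDegree ≤ |h.coeff h.natDegree * N ^ h.natDegree| := by
    rw [abs_mul, abs_of_pos (pow_pos hN0 _)]
    exact le_mul_of_one_le_left (pow_pos hN0 _).le hlc
  rw [eval_eq_sum_range, sum_range_succ]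
  have h6 := abs_sub_abs_le_abs_sub (h.coeff h.natDegree * N ^ h.natDegree)
    (-∑ i ∈ range h.natDegree, h.coeff i * N ^ i)
  rw [abs_neg, sub_neg_eq_add, add_comm (h.coeff h.natDegree * N ^ h.natDegree)] at h6
  linarith

/-- upper bound for the value -/
theorem eval_le {h : ℤ[X]} {K N : ℤ} (hK : ∀ i, |h.coeff i| ≤ K) (hN : 2 ≤ N) :
    |h.eval N| ≤ 2 * K * N ^ h.natDegree := by
  have hK0 : 0 ≤ K := (abs_nonneg _).trans (hK 0)
  have hN0 : 0 < N := by linarith
  have h1 : |h.eval N| ≤ K * ∑ i ∈ range (h.natDegree + 1), N ^ i := by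
    rw [eval_eq_sum_range, mul_sum]
    refine (abs_sum_le_sum_abs _ _).trans (sum_le_sum fun i _ => ?_)
    rw [abs_mul, abs_of_pos (pow_pos hN0 i)]
    exact mul_le_mul_of_nonneg_right (hK i) (pow_pos hN0 i).le
  have h2 : (∑ i ∈ range (h.natDegree + 1), N ^ i) * (N - 1) = N ^ (h.natDegree + 1) - 1 :=
    geom_sum_mul N (h.natDegree + 1)
  have h3 : ∑ i ∈ range (h.natDegree + 1), N ^ i ≤ 2 * N ^ h.natDegree := by
    have h4 : (∑ i ∈ range (h.natDegree + 1), N ^ i) * (N - 1) ≤
        (2 * N ^ h.natDegree) * (N - 1) := by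
      rw [h2, pow_succ]
      have h5 : 0 < N ^ h.natDegree := pow_pos hN0 _
      have h6 : 0 ≤ N ^ h.natDegree * (N - 2) := mul_nonneg h5.le (by linarith)
      linarith
    exact le_of_mul_le_mul_right h4 (by linarith)
  calc |h.eval N| ≤ K * ∑ i ∈ range (h.natDegree + 1), N ^ i := h1
    _ ≤ K * (2 * N ^ h.natDegree) := mul_le_mul_of_nonneg_left h3 hK0
    _ = _ := by ring

/-- the roots of a polynomial with small coefficients -/
theorem root_le {p P : ℤ[X]} (hp : Dm p P) (hp0 : p ≠ 0) {L : ℤ} (hL : P.eval 1 ≤ L) {z : ℂ}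
    (hz : (p.map (Int.castRingHom ℂ)).eval z = 0) : ‖z‖ ≤ L := by
  by_contra hcon
  push Not at hcon
  have hlc : 1 ≤ |p.coeff p.natDegree| := by
    apply Int.one_le_abs
    rw [coeff_natDegree]
    exact leadingCoeff_ne_zero.2 hp0
  have hL1 : 1 ≤ L := (hlc.trans (hp.le_eval _)).trans hL
  have hLR : (1 : ℝ) ≤ L := by exact_mod_cast hL1
  have hz1 : 1 ≤ ‖z‖ := hLR.trans hcon.le
  rw [eval_map, eval₂_eq_sum_range, sum_range_succ] at hz
  simp only [eq_intCast] at hz
  rcases Nat.eq_zero_or_pos p.natDegree with h0 | h0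
  · rw [h0] at hz hlc
    simp only [range_zero, sum_empty, pow_zero, mul_one, zero_add] at hz
    have : p.coeff 0 = 0 := by exact_mod_cast hz
    rw [this] at hlc
    simp at hlc
  obtain ⟨d, hd⟩ : ∃ d, p.natDegree = d + 1 := ⟨p.natDegree - 1, by omega⟩
  have h1 : (p.coeff p.natDegree : ℂ) * z ^ p.natDegree =
      -∑ i ∈ range p.natDegree, (p.coeff i : ℂ) * z ^ i := by
    linear_combination hz
  have h2 : ‖z‖ ^ (d + 1) ≤ (L - 1) * ‖z‖ ^ d := by
    calc ‖z‖ ^ (d + 1) ≤ (|p.coeff p.natDegree| : ℝ) * ‖z‖ ^ p.natDegree := by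
          rw [hd] at hlc ⊢
          apply le_mul_of_one_le_left (by positivity)
          exact_mod_cast hlc
      _ = ‖(p.coeff p.natDegree : ℂ) * z ^ p.natDegree‖ := by
          rw [norm_mul, norm_pow, Complex.norm_intCast]
      _ = ‖∑ i ∈ range p.natDegree, (p.coeff i : ℂ) * z ^ i‖ := by rw [h1, norm_neg]
      _ ≤ ∑ i ∈ range p.natDegree, ‖(p.coeff i : ℂ) * z ^ i‖ := norm_sum_le _ _
      _ ≤ ∑ i ∈ range p.natDegree, (|p.coeff i| : ℝ) * ‖z‖ ^ d := by
          refine sum_le_sum fun i hi => ?_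
          rw [norm_mul, norm_pow, Complex.norm_intCast]
          rw [mem_range] at hi
          exact mul_le_mul_of_nonneg_left (pow_le_pow_right₀ hz1 (by omega)) (abs_nonneg _)
      _ = (∑ i ∈ range p.natDegree, (|p.coeff i| : ℝ)) * ‖z‖ ^ d := by rw [sum_mul]
      _ ≤ (L - 1) * ‖z‖ ^ d := by
          apply mul_le_mul_of_nonneg_right _ (by positivity)
          have h3 := hp.sum_le (p.natDegree + 1)
          rw [sum_range_succ] at h3
          have h4 : ∑ i ∈ range p.natDegree, |p.coeff i| ≤ L - 1 := by linarith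
          exact_mod_cast h4
  have h3 : 0 < ‖z‖ ^ d := by positivity
  rw [pow_succ, mul_comm] at h2
  have h4 : ‖z‖ ≤ L - 1 := le_of_mul_le_mul_right h2 h3
  linarith

/-- the value of a nonconstant factor of a polynomial with small coefficients -/
theorem factor_ge {p P q : ℤ[X]} (hp : Dm p P) (hp0 : p ≠ 0) {L : ℤ} (hL : P.eval 1 ≤ L)
    (hq : q ∣ p) (hqd : 0 < q.natDegree) {N : ℤ} (hN : L + 1 ≤ N) : N - L ≤ |q.eval N| := by
  have hq0 : q ≠ 0 := ne_zero_of_natDegree_gt hqd
  have hinj : Function.Injective (Int.castRingHom ℂ) := (Int.castRingHom ℂ).injective_int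
  set q' : ℂ[X] := q.map (Int.castRingHom ℂ) with hq'
  have hsp : q'.Splits := IsAlgClosed.splits q'
  have h1 := hsp.eval_eq_prod_roots (N : ℂ)
  have h2 : q'.eval (N : ℂ) = ((q.eval N : ℤ) : ℂ) := by
    rw [hq', eval_map]
    have := Polynomial.hom_eval₂ q (RingHom.id ℤ) (Int.castRingHom ℂ) N
    simp only [eval₂_id, RingHom.comp_id, eq_intCast] at this
    exact this.symm
  have h3 : q'.leadingCoeff = ((q.leadingCoeff : ℤ) : ℂ) := by
    rw [hq', leadingCoeff_map_of_injective hinj]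
    simp
  have hcard : q'.roots.card = q.natDegree := by
    rw [← hsp.natDegree_eq_card_roots, hq', natDegree_map_eq_of_injective hinj]
  have hroot : ∀ z ∈ q'.roots, (N - L : ℝ) ≤ ‖(N : ℂ) - z‖ := by
    intro z hz
    have hz' : q'.eval z = 0 := (mem_roots'.1 hz).2
    have hpz : (p.map (Int.castRingHom ℂ)).eval z = 0 := by
      obtain ⟨r, hr⟩ := hq
      rw [hr, Polynomial.map_mul, eval_mul, ← hq', hz', zero_mul]
    have h4 := root_le hp hp0 hL hpz
    have h5 := norm_sub_norm_le (N : ℂ) z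
    rw [Complex.norm_intCast] at h5
    have h6 : (N : ℝ) ≤ |(N : ℝ)| := le_abs_self _
    linarith
  have hNL : (1 : ℝ) ≤ N - L := by
    have : (1 : ℤ) ≤ N - L := by linarith
    exact_mod_cast this
  have hprod : ∀ s : Multiset ℂ, (∀ z ∈ s, (N - L : ℝ) ≤ ‖(N : ℂ) - z‖) →
      (N - L : ℝ) ^ s.card ≤ ‖(s.map fun z => (N : ℂ) - z).prod‖ := by
    intro s
    induction s using Multiset.induction_on with
    | empty => intro _; simp
    | cons a s ih =>
      intro hs
      rw [Multiset.card_cons, Multiset.map_cons, Multiset.prod_cons, norm_mul, pow_succ, mul_comm]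
      exact mul_le_mul (hs a (Multiset.mem_cons_self a s))
        (ih fun z hz => hs z (Multiset.mem_cons_of_mem hz)) (by positivity) (norm_nonneg _)
  have h7 := hprod q'.roots hroot
  rw [hcard] at h7
  have h8 : (N - L : ℝ) ≤ (N - L : ℝ) ^ q.natDegree := le_self_pow₀ hNL (by omega)
  have h9 : (1 : ℝ) ≤ |(q.leadingCoeff : ℝ)| := by
    have := Int.one_le_abs (leadingCoeff_ne_zero.2 hq0)
    exact_mod_cast this
  have h10 : (N - L : ℝ) ≤ |((q.eval N : ℤ) : ℝ)| := by
    calc (N - L : ℝ) ≤ ‖(q'.roots.map fun z => (N : ℂ) - z).prod‖ := h8.trans h7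
      _ ≤ |(q.leadingCoeff : ℝ)| * ‖(q'.roots.map fun z => (N : ℂ) - z).prod‖ :=
          le_mul_of_one_le_left (norm_nonneg _) h9
      _ = ‖q'.eval (N : ℂ)‖ := by
          rw [h1, norm_mul, h3, Complex.norm_intCast]
      _ = |((q.eval N : ℤ) : ℝ)| := by rw [h2, Complex.norm_intCast]
  exact_mod_cast h10

end Pool.Agent.X5.SD
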