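import Mathlib
import Pool.Agent.X5.SD.Base

/-!
The Wronskian of integer polynomials; the argument of Mason and Stothers without coprimality.
-/

set_option autoImplicit false

namespace Pool.Agent.X5.SD

open Polynomial Finset

theorem coeff_X_mul_der (h : ℤ[X]) (e : ℕ) : (X * derivative h).coeff e = e * h.coeff e := by
  cases e with
  | zero => simp
  | succ e =>
    rw [coeff_X_mul, coeff_derivative]
    push_cast
    ring

theorem natDegree_X_mul_der (h : ℤ[X]) : (X * derivative h).natDegree ≤ h.natDegree := by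
  rw [natDegree_le_iff_coeff_eq_zero]
  intro N hN
  rw [coeff_X_mul_der, coeff_eq_zero_of_natDegree_lt hN, mul_zero]

theorem coeff_X_mul_wr (f g : ℤ[X]) : (X * wronskian f g).coeff (f.natDegree + g.natDegree) =
    ((g.natDegree : ℤ) - f.natDegree) * f.leadingCoeff * g.leadingCoeff := by
  have h1 : X * wronskian f g = f * (X * derivative g) - (X * derivative f) * g := by
    rw [wronskian]; ring
  rw [h1, coeff_sub, coeff_mul_add_eq_of_natDegree_le le_rfl (natDegree_X_mul_der g),
    coeff_mul_add_eq_of_natDegree_le (natDegree_X_mul_der f) le_rfl, coeff_X_mul_der,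
    coeff_X_mul_der, coeff_natDegree, coeff_natDegree]
  ring

theorem wr_degree {f g : ℤ[X]} (hf : f ≠ 0) (hg : g ≠ 0) (h : wronskian f g = 0) :
    f.natDegree = g.natDegree := by
  have h1 := coeff_X_mul_wr f g
  rw [h, mul_zero, coeff_zero] at h1
  have h2 := leadingCoeff_ne_zero.2 hf
  have h3 := leadingCoeff_ne_zero.2 hg
  have h4 : ((g.natDegree : ℤ) - f.natDegree) = 0 := by
    by_contra hcon
    exact mul_ne_zero (mul_ne_zero hcon h2) h3 h1.symm
  have h5 : (g.natDegree : ℤ) = f.natDegree := by linarith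
  exact_mod_cast h5.symm

theorem wr_prop {f g : ℤ[X]} (hf : f ≠ 0) (hg : g ≠ 0) (h : wronskian f g = 0) :
    C g.leadingCoeff * f = C f.leadingCoeff * g := by
  by_contra hcon
  have hd := wr_degree hf hg h
  have he : C g.leadingCoeff * f - C f.leadingCoeff * g ≠ 0 := sub_ne_zero.2 hcon
  have hw : wronskian f (C g.leadingCoeff * f - C f.leadingCoeff * g) = 0 := by
    have : wronskian f (C g.leadingCoeff * f - C f.leadingCoeff * g) =
        - C f.leadingCoeff * wronskian f g := by
      simp only [wronskian, derivative_sub, derivative_C_mul]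
      ring
    rw [this, h, mul_zero]
  have h1 := wr_degree hf he hw
  have h2 : (C g.leadingCoeff * f - C f.leadingCoeff * g).coeff f.natDegree = 0 := by
    rw [coeff_sub, coeff_C_mul, coeff_C_mul, coeff_natDegree, hd, coeff_natDegree]
    ring
  rw [h1, coeff_natDegree] at h2
  exact leadingCoeff_ne_zero.2 he h2

/-- a common prime factor -/
theorem common_prime {f g : ℤ[X]} (hf : f ≠ 0)
    (h : ¬ IsCoprime (f.map (Int.castRingHom ℚ)) (g.map (Int.castRingHom ℚ))) :
    ∃ q : ℤ[X], Prime q ∧ 0 < q.natDegree ∧ q ∣ f ∧ q ∣ g := by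
  classical
  have hinj : Function.Injective (Int.castRingHom ℚ) := (Int.castRingHom ℚ).injective_int
  have hf' : f.map (Int.castRingHom ℚ) ≠ 0 := (Polynomial.map_ne_zero_iff hinj).mpr hf
  have hex : ∃ z : ℚ[X], Irreducible z ∧ z ∣ f.map (Int.castRingHom ℚ) ∧
      z ∣ g.map (Int.castRingHom ℚ) := by
    by_contra hcon
    push Not at hcon
    exact h (isCoprime_of_irreducible_dvd (fun h0 => hf' h0.1) (fun z hz h1 h2 => hcon z hz h1 h2))
  obtain ⟨z, hz, hzf, hzg⟩ := hex
  obtain ⟨b, hb, hbz⟩ := IsLocalization.integerNormalization_spec (nonZeroDivisors ℤ) z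
  set Z := IsLocalization.integerNormalization (nonZeroDivisors ℤ) z with hZ
  have hb0 : (b : ℤ) ≠ 0 := nonZeroDivisors.ne_zero hb
  have hbz' : Z.map (Int.castRingHom ℚ) = C (b : ℚ) * z := by
    have h1 : (algebraMap ℤ ℚ) = Int.castRingHom ℚ := rfl
    rw [← h1, hbz]
    rw [← Polynomial.smul_eq_C_mul]
    rw [← Int.cast_smul_eq_zsmul ℚ]
  have hbQ : (b : ℚ) ≠ 0 := by exact_mod_cast hb0
  have hdegZ : Z.natDegree = z.natDegree := by
    rw [← natDegree_map_eq_of_injective hinj, hbz', natDegree_C_mul hbQ]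
  have hdiv : ∀ w : ℤ[X], z ∣ w.map (Int.castRingHom ℚ) → Z.primPart ∣ w := by
    intro w hw
    rw [IsPrimitive.Int.dvd_iff_map_cast_dvd_map_cast _ _ (isPrimitive_primPart Z)]
    have h1 : Z.primPart.map (Int.castRingHom ℚ) ∣ Z.map (Int.castRingHom ℚ) :=
      Polynomial.map_dvd _ Z.primPart_dvd
    rw [hbz'] at h1
    refine h1.trans ?_
    obtain ⟨v, hv⟩ := hw
    refine ⟨C (b : ℚ)⁻¹ * v, ?_⟩
    rw [hv]
    calc z * v = (C (b : ℚ) * C (b : ℚ)⁻¹) * (z * v) := by
          rw [← C_mul, mul_inv_cancel₀ hbQ, C_1, one_mul]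
      _ = _ := by ring
  have hprim : Z.primPart.IsPrimitive := isPrimitive_primPart Z
  have hpos : 0 < Z.primPart.natDegree := by
    rw [natDegree_primPart, hdegZ]
    exact hz.natDegree_pos
  have hnu : ¬ IsUnit Z.primPart := by
    intro hu
    have := natDegree_eq_zero_of_isUnit hu
    omega
  obtain ⟨q, hq, hqZ⟩ := WfDvdMonoid.exists_irreducible_factor hnu hprim.ne_zero
  refine ⟨q, hq.prime, ?_, hqZ.trans (hdiv f hzf), hqZ.trans (hdiv g hzg)⟩
  rcases Nat.eq_zero_or_pos q.natDegree with h0 | h0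
  · exfalso
    obtain ⟨c, hc⟩ : ∃ c, q = C c := ⟨q.coeff 0, eq_C_of_natDegree_eq_zero h0⟩
    have h1 : IsUnit c := hprim c (by rw [← hc]; exact hqZ)
    exact hq.not_isUnit (by rw [hc]; exact isUnit_C.2 h1)
  · exact h0

variable {ι : Type*}

theorem dvd_derivative_prod (S : Finset ι) (h : ι → ℤ[X]) (k : ι → ℕ) :
    ∏ i ∈ S, h i ^ (k i - 1) ∣ derivative (∏ i ∈ S, h i ^ k i) := by
  classical
  induction S using Finset.induction_on with
  | empty => simp
  | insert a S ha ih =>
    rw [prod_insert ha, prod_insert ha, derivative_mul]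
    apply dvd_add
    · apply mul_dvd_mul
      · rw [derivative_pow]
        exact (dvd_mul_left _ _).mul_right _
      · exact prod_dvd_prod_of_dvd _ _ fun i _ => pow_dvd_pow _ (Nat.sub_le _ _)
    · exact mul_dvd_mul (pow_dvd_pow _ (Nat.sub_le _ _)) ih

theorem dvd_prod' (S : Finset ι) (h : ι → ℤ[X]) (k : ι → ℕ) :
    ∏ i ∈ S, h i ^ (k i - 1) ∣ ∏ i ∈ S, h i ^ k i :=
  prod_dvd_prod_of_dvd _ _ fun _ _ => pow_dvd_pow _ (Nat.sub_le _ _)

theorem dvd_wr_left {q f g : ℤ[X]} (h1 : q ∣ f) (h2 : q ∣ derivative f) : q ∣ wronskian f g := by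
  rw [wronskian]
  exact dvd_sub (h1.mul_right _) (h2.mul_right _)

theorem dvd_wr_right {q f g : ℤ[X]} (h1 : q ∣ g) (h2 : q ∣ derivative g) : q ∣ wronskian f g := by
  rw [wronskian]
  exact dvd_sub (h2.mul_left _) (h1.mul_left _)

/-- the argument of Mason and Stothers -/
theorem mason {PX PY PZ QX QY QZ : ℤ[X]} (hX1 : QX ∣ PX) (hX2 : QX ∣ derivative PX)
    (hY1 : QY ∣ PY) (hY2 : QY ∣ derivative PY) (hZ1 : QZ ∣ PZ) (hZ2 : QZ ∣ derivative PZ)
    {a b c : ℤ} (ha : a ≠ 0) (hb : b ≠ 0) (hc : c ≠ 0)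
    (heq : C a * PX + C b * PY = C c * PZ)
    (cXY : IsCoprime (QX.map (Int.castRingHom ℚ)) (QY.map (Int.castRingHom ℚ)))
    (cXZ : IsCoprime (QX.map (Int.castRingHom ℚ)) (QZ.map (Int.castRingHom ℚ)))
    (cYZ : IsCoprime (QY.map (Int.castRingHom ℚ)) (QZ.map (Int.castRingHom ℚ)))
    (hW : wronskian PX PY ≠ 0) :
    QX.natDegree + QY.natDegree + QZ.natDegree < PX.natDegree + PY.natDegree ∧
    QX.natDegree + QY.natDegree + QZ.natDegree < PX.natDegree + PZ.natDegree ∧
    QX.natDegree + QY.natDegree + QZ.natDegree < PY.natDegree + PZ.natDegree := by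
  have hinj : Function.Injective (Int.castRingHom ℚ) := (Int.castRingHom ℚ).injective_int
  have e1 : C c * wronskian PX PZ = C b * wronskian PX PY := by
    have h1 : C c * wronskian PX PZ = wronskian PX (C c * PZ) := by
      simp only [wronskian, derivative_C_mul]; ring
    rw [h1, ← heq]
    simp only [wronskian, derivative_C_mul, derivative_add]; ring
  have e2 : C c * wronskian PZ PY = C a * wronskian PX PY := by
    have h1 : C c * wronskian PZ PY = wronskian (C c * PZ) PY := by
      simp only [wronskian, derivative_C_mul]; ring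
    rw [h1, ← heq]
    simp only [wronskian, derivative_C_mul, derivative_add]; ring
  have ne1 : wronskian PX PZ ≠ 0 := by
    intro h0
    rw [h0, mul_zero] at e1
    exact mul_ne_zero (C_ne_zero.2 hb) hW e1.symm
  have ne2 : wronskian PZ PY ≠ 0 := by
    intro h0
    rw [h0, mul_zero] at e2
    exact mul_ne_zero (C_ne_zero.2 ha) hW e2.symm
  have d1 : (wronskian PX PZ).natDegree = (wronskian PX PY).natDegree := by
    rw [← natDegree_C_mul hc, e1, natDegree_C_mul hb]
  have d2 : (wronskian PZ PY).natDegree = (wronskian PX PY).natDegree := by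
    rw [← natDegree_C_mul hc, e2, natDegree_C_mul ha]
  have w1 := natDegree_wronskian_lt_add hW
  have w2 := natDegree_wronskian_lt_add ne1
  have w3 := natDegree_wronskian_lt_add ne2
  -- divisibility
  have hW' : (wronskian PX PY).map (Int.castRingHom ℚ) ≠ 0 :=
    (Polynomial.map_ne_zero_iff hinj).mpr hW
  have v1 : QX.map (Int.castRingHom ℚ) ∣ (wronskian PX PY).map (Int.castRingHom ℚ) :=
    Polynomial.map_dvd _ (dvd_wr_left hX1 hX2)
  have v2 : QY.map (Int.castRingHom ℚ) ∣ (wronskian PX PY).map (Int.castRingHom ℚ) :=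
    Polynomial.map_dvd _ (dvd_wr_right hY1 hY2)
  have v3 : QZ.map (Int.castRingHom ℚ) ∣ (wronskian PX PY).map (Int.castRingHom ℚ) := by
    have h1 : QZ ∣ C b * wronskian PX PY := by
      rw [← e1]
      exact (dvd_wr_right hZ1 hZ2).mul_left _
    have h2 := Polynomial.map_dvd (Int.castRingHom ℚ) h1
    rw [Polynomial.map_mul, map_C] at h2
    have hu : IsUnit (C ((Int.castRingHom ℚ) b)) := by
      rw [isUnit_C, isUnit_iff_ne_zero]
      simpa using hb
    exact (hu.dvd_mul_left).1 h2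
  have v4 := (IsCoprime.mul_dvd cXY v1 v2)
  have v5 : QX.map (Int.castRingHom ℚ) * QY.map (Int.castRingHom ℚ) * QZ.map (Int.castRingHom ℚ) ∣
      (wronskian PX PY).map (Int.castRingHom ℚ) :=
    IsCoprime.mul_dvd (IsCoprime.mul_left cXZ cYZ) v4 v3
  have h5 := natDegree_le_of_dvd v5 hW'
  have n1 : QX.map (Int.castRingHom ℚ) ≠ 0 := fun h => hW' (by rw [h] at v1; exact zero_dvd_iff.1 v1)
  have n2 : QY.map (Int.castRingHom ℚ) ≠ 0 := fun h => hW' (by rw [h] at v2; exact zero_dvd_iff.1 v2)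
  have n3 : QZ.map (Int.castRingHom ℚ) ≠ 0 := fun h => hW' (by rw [h] at v3; exact zero_dvd_iff.1 v3)
  rw [natDegree_mul (mul_ne_zero n1 n2) n3, natDegree_mul n1 n2,
    natDegree_map_eq_of_injective hinj, natDegree_map_eq_of_injective hinj,
    natDegree_map_eq_of_injective hinj, natDegree_map_eq_of_injective hinj] at h5
  refine ⟨by omega, by omega, by omega⟩

end Pool.Agent.X5.SD
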