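import Mathlib
import Pool.Agent.X5.SD.Wr

/-!
Products of small spread with bases that have small digits in a common base `N`.
-/

set_option autoImplicit false

namespace Pool.Agent.X5.SD

open Polynomial Finset

theorem Dm.const_le {c s : ℤ} (h : |c| ≤ s) : Dm (C c) (C s) := by
  intro i
  rw [coeff_C, coeff_C]
  split_ifs
  · exact h
  · simp

/-- the polynomial of the factor `x` -/
noncomputable def hp (g : ℤ[X]) (b : ℕ) (x : ℕ) : ℤ[X] := g + C ((x : ℤ) - b)

noncomputable def PP (g : ℤ[X]) (b : ℕ) (l : List ℕ) : ℤ[X] := ∏ x ∈ l.toFinset, hp g b x ^ l.count x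

noncomputable def QQ (g : ℤ[X]) (b : ℕ) (l : List ℕ) : ℤ[X] :=
  ∏ x ∈ l.toFinset, hp g b x ^ (l.count x - 1)

section

variable {g G : ℤ[X]} {b s N L : ℕ} {l : List ℕ}

theorem hp_eval (hg : g.eval (N : ℤ) = b) (x : ℕ) : (hp g b x).eval (N : ℤ) = x := by
  rw [hp, eval_add, eval_C, hg]; ring

theorem hp_ne (hg : g.eval (N : ℤ) = b) {x : ℕ} (hx : 0 < x) : hp g b x ≠ 0 := by
  intro h0
  have := hp_eval hg x
  rw [h0, eval_zero] at this
  omega

theorem hp_natDegree (x : ℕ) : (hp g b x).natDegree = g.natDegree := natDegree_add_C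

theorem hp_dm (hG : Dm g G) {x : ℕ} (h1 : b ≤ x) (h2 : x ≤ b + s) : Dm (hp g b x) (G + C (s : ℤ)) := by
  refine hG.add (Dm.const_le ?_)
  rw [abs_of_nonneg (by omega)]
  omega

theorem PP_ne (hg : g.eval (N : ℤ) = b) (hpos : ∀ x ∈ l, 0 < x) : PP g b l ≠ 0 :=
  prod_ne_zero_iff.2 fun x hx => pow_ne_zero _ (hp_ne hg (hpos x (List.mem_toFinset.1 hx)))

theorem sum_count (l : List ℕ) : ∑ x ∈ l.toFinset, l.count x = l.length :=
  List.sum_toFinset_count_eq_length l

theorem PP_natDegree (hg : g.eval (N : ℤ) = b) (hpos : ∀ x ∈ l, 0 < x) :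
    (PP g b l).natDegree = l.length * g.natDegree := by
  rw [PP, natDegree_prod _ _ fun x hx =>
    pow_ne_zero _ (hp_ne hg (hpos x (List.mem_toFinset.1 hx)))]
  simp only [natDegree_pow, hp_natDegree]
  rw [← sum_mul, sum_count]

theorem QQ_natDegree (hg : g.eval (N : ℤ) = b) (hpos : ∀ x ∈ l, 0 < x) :
    (QQ g b l).natDegree + l.toFinset.card * g.natDegree = l.length * g.natDegree := by
  rw [QQ, natDegree_prod _ _ fun x hx =>
    pow_ne_zero _ (hp_ne hg (hpos x (List.mem_toFinset.1 hx)))]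
  simp only [natDegree_pow, hp_natDegree]
  rw [← sum_mul, ← add_mul]
  congr 1
  rw [← sum_count l, card_eq_sum_ones, ← sum_add_distrib]
  refine sum_congr rfl fun x hx => ?_
  have : 0 < l.count x := List.count_pos_iff.2 (List.mem_toFinset.1 hx)
  omega

theorem PP_eval (hg : g.eval (N : ℤ) = b) : (PP g b l).eval (N : ℤ) = (l.prod : ℕ) := by
  rw [PP, eval_prod, Finset.prod_list_count]
  push_cast
  refine prod_congr rfl fun x _ => ?_
  rw [eval_pow, hp_eval hg]

theorem PP_dm (hG : Dm g G) (h : ∀ x ∈ l, b ≤ x ∧ x ≤ b + s) :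
    Dm (PP g b l) ((G + C (s : ℤ)) ^ l.length) := by
  rw [← sum_count l, ← prod_pow_eq_pow_sum]
  exact Dm.prod _ fun x hx =>
    (hp_dm hG (h x (List.mem_toFinset.1 hx)).1 (h x (List.mem_toFinset.1 hx)).2).pow _

theorem QQ_dvd (g : ℤ[X]) (b : ℕ) (l : List ℕ) : QQ g b l ∣ PP g b l := dvd_prod' _ _ _

theorem QQ_dvd' (g : ℤ[X]) (b : ℕ) (l : List ℕ) : QQ g b l ∣ derivative (PP g b l) :=
  dvd_derivative_prod _ _ _

/-- a prime factor of `QQ` is a double factor of `PP` -/
theorem sq_dvd {q : ℤ[X]} (hq : Prime q) (h : q ∣ QQ g b l) : q ^ 2 ∣ PP g b l := by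
  rw [QQ, hq.dvd_finsetProd_iff] at h
  obtain ⟨x, hx, hxq⟩ := h
  have h1 : l.count x - 1 ≠ 0 := by
    intro h0
    rw [h0, pow_zero] at hxq
    exact hq.not_isUnit (isUnit_of_dvd_one hxq)
  have h2 : q ∣ hp g b x := hq.dvd_of_dvd_pow hxq
  have h3 : q ^ 2 ∣ hp g b x ^ l.count x :=
    (pow_dvd_pow_of_dvd h2 2).trans (pow_dvd_pow _ (by omega))
  exact h3.trans (dvd_prod_of_mem _ hx)

theorem sq_dvd_of_two {q : ℤ[X]} {x : ℕ} (h2 : q ∣ hp g b x) (hc : 2 ≤ l.count x) :
    q ^ 2 ∣ PP g b l := by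
  have h3 : q ^ 2 ∣ hp g b x ^ l.count x :=
    (pow_dvd_pow_of_dvd h2 2).trans (pow_dvd_pow _ hc)
  have hx : x ∈ l.toFinset := List.mem_toFinset.2 (List.count_pos_iff.1 (by omega))
  exact h3.trans (dvd_prod_of_mem _ hx)

theorem prime_value (hg : g.eval (N : ℤ) = b) (hG : Dm g G) (hpos : ∀ x ∈ l, 0 < x)
    (h : ∀ x ∈ l, b ≤ x ∧ x ≤ b + s) (hL : G.eval 1 + s ≤ L) (hLN : L < N) {q : ℤ[X]} (hq : Prime q)
    (hqd : 0 < q.natDegree) (hqP : q ∣ PP g b l) : (N : ℤ) - L ≤ |q.eval (N : ℤ)| := by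
  rw [PP, hq.dvd_finsetProd_iff] at hqP
  obtain ⟨x, hx, hxq⟩ := hqP
  have h2 : q ∣ hp g b x := hq.dvd_of_dvd_pow hxq
  have hxl := List.mem_toFinset.1 hx
  refine factor_ge (hp_dm hG (h x hxl).1 (h x hxl).2) (hp_ne hg (hpos x hxl)) ?_ h2 hqd (by omega)
  rw [eval_add, eval_C]
  exact hL

end

/-- `gcd / rad gcd` is large if the gcd is divisible by a large square -/
theorem rad_bound {d m Q : ℕ} (hd : 0 < d) (hm : m ^ 2 ∣ d)
    (h : d ≤ Q * ∏ p ∈ d.primeFactors, p) : m ≤ Q := by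
  obtain ⟨t, ht⟩ := hm
  have hm0 : m ≠ 0 := by
    rintro rfl
    simp at ht
    omega
  have ht0 : t ≠ 0 := by
    rintro rfl
    simp at ht
    omega
  have h1 : d.primeFactors = (m * t).primeFactors := by
    rw [ht, Nat.primeFactors_mul (pow_ne_zero _ hm0) ht0, Nat.primeFactors_mul hm0 ht0,
      Nat.primeFactors_pow _ (by norm_num)]
  have h2 : ∏ p ∈ d.primeFactors, p ≤ m * t := by
    rw [h1]
    exact Nat.le_of_dvd (Nat.pos_of_ne_zero (mul_ne_zero hm0 ht0)) (Nat.prod_primeFactors_dvd _)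
  have h3 : m * (m * t) ≤ Q * (m * t) := by
    calc m * (m * t) = d := by rw [ht]; ring
      _ ≤ Q * ∏ p ∈ d.primeFactors, p := h
      _ ≤ Q * (m * t) := Nat.mul_le_mul_left _ h2
  exact Nat.le_of_mul_le_mul_right h3 (Nat.pos_of_ne_zero (mul_ne_zero hm0 ht0))

/-- A product: degree `l.length`, base `b`, spread at most `s`. -/
structure Rep (N H n : ℕ) (l : List ℕ) (b s : ℕ) (g G : ℤ[X]) : Prop where
  pos : ∀ x ∈ l, 0 < x
  bd : ∀ x ∈ l, b ≤ x ∧ x ≤ b + s
  ev : g.eval (N : ℤ) = b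
  dm : Dm g G
  le : G.eval 1 + s ≤ H
  deg : l.length ≤ n
  ne : l ≠ []

theorem Rep.card {N H n : ℕ} {l : List ℕ} {b s : ℕ} {g G : ℤ[X]} (h : Rep N H n l b s g G) :
    l.toFinset.card ≤ s + 1 := by
  have h1 : l.toFinset ⊆ Finset.Icc b (b + s) := by
    intro x hx
    rw [Finset.mem_Icc]
    exact h.bd x (List.mem_toFinset.1 hx)
  have := card_le_card h1
  rw [Nat.card_Icc] at this
  omega

/-- the main theorem -/
theorem main {N H n A B D Q : ℕ} (hA : 0 < A) (hB : 0 < B) (hD : 0 < D)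
    (hN : 2 * (A + B + D) * H ^ n < N) (hQ : Q + H < N) {lX lY lZ : List ℕ} {bX bY bZ sX sY sZ : ℕ}
    {gX gY gZ GX GY GZ : ℤ[X]} (rX : Rep N H n lX bX sX gX GX) (rY : Rep N H n lY bY sY gY GY)
    (rZ : Rep N H n lZ bZ sZ gZ GZ) (hbig : H < bX ∨ H < bY ∨ H < bZ)
    (heq : A * lX.prod + B * lY.prod = D * lZ.prod)
    (hgcd : Nat.gcd lX.prod lY.prod ≤ Q * ∏ p ∈ (Nat.gcd lX.prod lY.prod).primeFactors, p) :
    (1 : ℝ) < (sX + 1) / lX.length + (sY + 1) / lY.length + (sZ + 1) / lZ.length := by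
  classical
  have hinj : Function.Injective (Int.castRingHom ℚ) := (Int.castRingHom ℚ).injective_int
  set PX := PP gX bX lX with hPX
  set PY := PP gY bY lY with hPY
  set PZ := PP gZ bZ lZ with hPZ
  have nX : PX ≠ 0 := PP_ne rX.ev rX.pos
  have nY : PY ≠ 0 := PP_ne rY.ev rY.pos
  have nZ : PZ ≠ 0 := PP_ne rZ.ev rZ.pos
  have hH0 : 0 < H := by
    by_contra hcon
    have hH : H = 0 := by omega
    -- then the base is zero
    have hX1 := rX.le
    have hX2 := rX.dm.eval_nonneg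
    have hs : GX.eval 1 = 0 := by
      rw [hH] at hX1
      push_cast at hX1
      have : (0 : ℤ) ≤ sX := by positivity
      linarith
    have hg0 : gX = 0 := by
      ext i
      have := rX.dm.le_eval i
      rw [hs] at this
      rw [coeff_zero]
      exact abs_eq_zero.1 (le_antisymm this (abs_nonneg _))
    have hb0 : bX = 0 := by
      have := rX.ev
      rw [hg0, eval_zero] at this
      omega
    have hs0 : sX = 0 := by
      rw [hH, hs] at hX1
      push_cast at hX1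
      omega
    obtain ⟨x, hx⟩ := List.exists_mem_of_ne_nil _ rX.ne
    have h1 := rX.pos x hx
    have h2 := (rX.bd x hx).2
    omega
  -- the polynomial identity
  have hid : C (A : ℤ) * PX + C (B : ℤ) * PY = C (D : ℤ) * PZ := by
    by_contra hcon
    have hE0 : C (A : ℤ) * PX + C (B : ℤ) * PY + -(C (D : ℤ) * PZ) ≠ 0 := by
      rw [← sub_eq_add_neg]
      exact sub_ne_zero.2 hcon
    have hdm : Dm (C (A : ℤ) * PX + C (B : ℤ) * PY + -(C (D : ℤ) * PZ))
        (C (A : ℤ) * (GX + C (sX : ℤ)) ^ lX.length + C (B : ℤ) * (GY + C (sY : ℤ)) ^ lY.length +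
          C (D : ℤ) * (GZ + C (sZ : ℤ)) ^ lZ.length) := by
      refine Dm.add (Dm.add ?_ ?_) (Dm.neg ?_)
      · exact Dm.mul (Dm.const_le (by simp)) (PP_dm rX.dm rX.bd)
      · exact Dm.mul (Dm.const_le (by simp)) (PP_dm rY.dm rY.bd)
      · exact Dm.mul (Dm.const_le (by simp)) (PP_dm rZ.dm rZ.bd)
    have hpw : ∀ (l : List ℕ) (b s : ℕ) (g G : ℤ[X]), Rep N H n l b s g G →
        ((G + C (s : ℤ)) ^ l.length).eval 1 ≤ (H : ℤ) ^ n := by
      intro l b s g G r
      rw [eval_pow, eval_add, eval_C]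
      have h1 : 0 ≤ G.eval 1 + (s : ℤ) := by
        have := r.dm.eval_nonneg
        positivity
      calc (G.eval 1 + (s : ℤ)) ^ l.length ≤ (H : ℤ) ^ l.length := pow_le_pow_left₀ h1 r.le _
        _ ≤ (H : ℤ) ^ n := pow_le_pow_right₀ (by exact_mod_cast hH0) r.deg
    have hK : ∀ i, |(C (A : ℤ) * PX + C (B : ℤ) * PY + -(C (D : ℤ) * PZ)).coeff i| ≤
        ((A + B + D : ℕ) : ℤ) * (H : ℤ) ^ n := by
      intro i
      refine (hdm.le_eval i).trans ?_
      rw [eval_add, eval_add, eval_mul, eval_mul, eval_mul, eval_C, eval_C, eval_C]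
      have h1 := mul_le_mul_of_nonneg_left (hpw _ _ _ _ _ rX) (Int.natCast_nonneg A)
      have h2 := mul_le_mul_of_nonneg_left (hpw _ _ _ _ _ rY) (Int.natCast_nonneg B)
      have h3 := mul_le_mul_of_nonneg_left (hpw _ _ _ _ _ rZ) (Int.natCast_nonneg D)
      push_cast
      linarith
    have hN' : 2 * (((A + B + D : ℕ) : ℤ) * (H : ℤ) ^ n) + 1 ≤ N := by
      have h1 : 2 * (A + B + D) * H ^ n + 1 ≤ N := hN
      have h2 : ((2 * (A + B + D) * H ^ n + 1 : ℕ) : ℤ) ≤ (N : ℤ) := by exact_mod_cast h1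
      push_cast at h2 ⊢
      linarith
    have h5 := eval_ge hK hN' hE0
    have h6 : (C (A : ℤ) * PX + C (B : ℤ) * PY + -(C (D : ℤ) * PZ)).eval (N : ℤ) = 0 := by
      rw [eval_add, eval_neg, eval_add, eval_mul, eval_mul, eval_mul, eval_C, eval_C, eval_C,
        hPX, hPY, hPZ, PP_eval rX.ev, PP_eval rY.ev, PP_eval rZ.ev]
      have : ((A * lX.prod + B * lY.prod : ℕ) : ℤ) = ((D * lZ.prod : ℕ) : ℤ) := by rw [heq]
      push_cast at this ⊢
      linarith
    rw [h6, abs_zero, mul_zero] at h5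
    have h7 : 0 ≤ (N : ℤ) ^ (C (A : ℤ) * PX + C (B : ℤ) * PY + -(C (D : ℤ) * PZ)).natDegree := by
      positivity
    linarith
  -- no double common factors
  have hsq : ∀ q : ℤ[X], Prime q → 0 < q.natDegree → q ^ 2 ∣ PX → q ^ 2 ∣ PY → False := by
    intro q hq hqd h1 h2
    have h3 : (N : ℤ) - H ≤ |q.eval (N : ℤ)| :=
      prime_value rX.ev rX.dm rX.pos rX.bd rX.le (by omega) hq hqd ((dvd_pow_self q two_ne_zero).trans h1)
    have e1 : (q.eval (N : ℤ)).natAbs ^ 2 ∣ lX.prod := by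
      have := eval_dvd (x := (N : ℤ)) h1
      rw [eval_pow, hPX, PP_eval rX.ev] at this
      rw [← Int.natAbs_pow, ← Int.natAbs_natCast lX.prod]
      exact Int.natAbs_dvd_natAbs.2 this
    have e2 : (q.eval (N : ℤ)).natAbs ^ 2 ∣ lY.prod := by
      have := eval_dvd (x := (N : ℤ)) h2
      rw [eval_pow, hPY, PP_eval rY.ev] at this
      rw [← Int.natAbs_pow, ← Int.natAbs_natCast lY.prod]
      exact Int.natAbs_dvd_natAbs.2 this
    have hpos : 0 < Nat.gcd lX.prod lY.prod := by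
      apply Nat.gcd_pos_of_pos_left
      exact List.prod_pos fun x hx => rX.pos x hx
    have h4 := rad_bound hpos (Nat.dvd_gcd e1 e2) hgcd
    have h5 : |q.eval (N : ℤ)| = ((q.eval (N : ℤ)).natAbs : ℤ) := Int.abs_eq_natAbs _
    rw [h5] at h3
    omega
  have hAz : (A : ℤ) ≠ 0 := by omega
  have hBz : (B : ℤ) ≠ 0 := by omega
  have hDz : (D : ℤ) ≠ 0 := by omega
  have hconst : ∀ (q : ℤ[X]) (c : ℤ), 0 < q.natDegree → c ≠ 0 → ¬ q ∣ C c := by
    intro q c hqd hc hdv
    have h1 := natDegree_le_of_dvd hdv (C_ne_zero.2 hc)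
    rw [natDegree_C] at h1
    omega
  have hXZ : ∀ q : ℤ[X], Prime q → 0 < q.natDegree → q ^ 2 ∣ PX → q ^ 2 ∣ PZ → False := by
    intro q hq hqd h1 h2
    refine hsq q hq hqd h1 ?_
    have h3 : q ^ 2 ∣ C (B : ℤ) * PY := by
      have : C (B : ℤ) * PY = C (D : ℤ) * PZ - C (A : ℤ) * PX := by rw [← hid]; ring
      rw [this]
      exact dvd_sub (h2.mul_left _) (h1.mul_left _)
    exact hq.pow_dvd_of_dvd_mul_left 2 (hconst q B hqd hBz) h3
  have hYZ : ∀ q : ℤ[X], Prime q → 0 < q.natDegree → q ^ 2 ∣ PY → q ^ 2 ∣ PZ → False := by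
    intro q hq hqd h1 h2
    refine hsq q hq hqd ?_ h1
    have h3 : q ^ 2 ∣ C (A : ℤ) * PX := by
      have : C (A : ℤ) * PX = C (D : ℤ) * PZ - C (B : ℤ) * PY := by rw [← hid]; ring
      rw [this]
      exact dvd_sub (h2.mul_left _) (h1.mul_left _)
    exact hq.pow_dvd_of_dvd_mul_left 2 (hconst q A hqd hAz) h3
  have nQX : QQ gX bX lX ≠ 0 := ne_zero_of_dvd_ne_zero nX (QQ_dvd _ _ _)
  have nQY : QQ gY bY lY ≠ 0 := ne_zero_of_dvd_ne_zero nY (QQ_dvd _ _ _)
  have cXY : IsCoprime ((QQ gX bX lX).map (Int.castRingHom ℚ))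
      ((QQ gY bY lY).map (Int.castRingHom ℚ)) := by
    by_contra hcon
    obtain ⟨q, hq, hqd, h1, h2⟩ := common_prime nQX hcon
    exact hsq q hq hqd (sq_dvd hq h1) (sq_dvd hq h2)
  have cXZ : IsCoprime ((QQ gX bX lX).map (Int.castRingHom ℚ))
      ((QQ gZ bZ lZ).map (Int.castRingHom ℚ)) := by
    by_contra hcon
    obtain ⟨q, hq, hqd, h1, h2⟩ := common_prime nQX hcon
    exact hXZ q hq hqd (sq_dvd hq h1) (sq_dvd hq h2)
  have cYZ : IsCoprime ((QQ gY bY lY).map (Int.castRingHom ℚ))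
      ((QQ gZ bZ lZ).map (Int.castRingHom ℚ)) := by
    by_contra hcon
    obtain ⟨q, hq, hqd, h1, h2⟩ := common_prime nQY hcon
    exact hYZ q hq hqd (sq_dvd hq h1) (sq_dvd hq h2)
  -- degrees
  have dX : PX.natDegree = lX.length * gX.natDegree := PP_natDegree rX.ev rX.pos
  have dY : PY.natDegree = lY.length * gY.natDegree := PP_natDegree rY.ev rY.pos
  have dZ : PZ.natDegree = lZ.length * gZ.natDegree := PP_natDegree rZ.ev rZ.pos
  have qX := QQ_natDegree rX.ev rX.pos
  have qY := QQ_natDegree rY.ev rY.pos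
  have qZ := QQ_natDegree rZ.ev rZ.pos
  have lXp : 0 < lX.length := List.length_pos_iff.2 rX.ne
  have lYp : 0 < lY.length := List.length_pos_iff.2 rY.ne
  have lZp : 0 < lZ.length := List.length_pos_iff.2 rZ.ne
  have lXR : (0 : ℝ) < lX.length := by exact_mod_cast lXp
  have lYR : (0 : ℝ) < lY.length := by exact_mod_cast lYp
  have lZR : (0 : ℝ) < lZ.length := by exact_mod_cast lZp
  by_cases hW : wronskian PX PY = 0
  · -- proportional
    have hprop := wr_prop nX nY hW
    have hdeg := wr_degree nX nY hW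
    have hbd : ∀ (l : List ℕ) (b s : ℕ) (g G : ℤ[X]), Rep N H n l b s g G → H < b →
        0 < g.natDegree := by
      intro l b s g G r hb
      by_contra hcon
      have h0 : g.natDegree = 0 := by omega
      obtain ⟨c, hc⟩ : ∃ c, g = C c := ⟨g.coeff 0, eq_C_of_natDegree_eq_zero h0⟩
      have h1 := r.ev
      rw [hc, eval_C] at h1
      have h2 := r.dm.le_eval 0
      rw [hc, coeff_C_zero, h1] at h2
      have h3 := r.le
      have h4 : |(b : ℤ)| = b := abs_of_nonneg (by positivity)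
      omega
    have hXpos : 0 < PX.natDegree := by
      by_contra hcon
      have h0 : PX.natDegree = 0 := by omega
      have h0' : PY.natDegree = 0 := by omega
      have h0'' : PZ.natDegree = 0 := by
        rw [← natDegree_C_mul hDz, ← hid]
        have h1 := natDegree_add_le (C (A : ℤ) * PX) (C (B : ℤ) * PY)
        rw [natDegree_C_mul hAz, natDegree_C_mul hBz, h0, h0'] at h1
        simpa using h1
      rcases hbig with h | h | h
      · have := hbd _ _ _ _ _ rX h
        rw [dX] at h0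
        have := Nat.mul_pos lXp this
        omega
      · have := hbd _ _ _ _ _ rY h
        rw [dY] at h0'
        have := Nat.mul_pos lYp this
        omega
      · have := hbd _ _ _ _ _ rZ h
        rw [dZ] at h0''
        have := Nat.mul_pos lZp this
        omega
    have hgX : 0 < gX.natDegree := by
      rw [dX] at hXpos
      exact Nat.pos_of_mul_pos_left hXpos
    have hcount : ∀ x ∈ lX.toFinset, lX.count x ≤ 1 := by
      intro x _
      by_contra hcon
      have hx2 : 2 ≤ lX.count x := by omega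
      have hxl : x ∈ lX := List.count_pos_iff.1 (by omega)
      have hne := hp_ne rX.ev (rX.pos x hxl)
      have hnc : ¬ IsCoprime ((hp gX bX x).map (Int.castRingHom ℚ))
          ((hp gX bX x).map (Int.castRingHom ℚ)) := by
        rw [isCoprime_self]
        intro hu
        have h1 := natDegree_eq_zero_of_isUnit hu
        rw [natDegree_map_eq_of_injective hinj, hp_natDegree] at h1
        omega
      obtain ⟨q, hq, hqd, h1, _⟩ := common_prime hne hnc
      have h2 : q ^ 2 ∣ PX := sq_dvd_of_two h1 hx2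
      refine hsq q hq hqd h2 ?_
      have h3 : q ^ 2 ∣ C PX.leadingCoeff * PY := by
        rw [← hprop]
        exact h2.mul_left _
      exact hq.pow_dvd_of_dvd_mul_left 2 (hconst q _ hqd (leadingCoeff_ne_zero.2 nX)) h3
    have hlen : lX.length ≤ sX + 1 := by
      calc lX.length = ∑ x ∈ lX.toFinset, lX.count x := (sum_count lX).symm
        _ ≤ ∑ x ∈ lX.toFinset, 1 := sum_le_sum hcount
        _ = lX.toFinset.card := (card_eq_sum_ones _).symm
        _ ≤ sX + 1 := rX.card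
    have h1 : (1 : ℝ) ≤ (sX + 1) / lX.length := by
      rw [le_div_iff₀ lXR, one_mul]
      exact_mod_cast hlen
    have h2 : (0 : ℝ) < (sY + 1) / lY.length := by positivity
    have h3 : (0 : ℝ) < (sZ + 1) / lZ.length := by positivity
    linarith
  · obtain ⟨m1, m2, m3⟩ := mason (QQ_dvd gX bX lX) (QQ_dvd' gX bX lX) (QQ_dvd gY bY lY)
      (QQ_dvd' gY bY lY) (QQ_dvd gZ bZ lZ) (QQ_dvd' gZ bZ lZ) hAz hBz hDz hid cXY cXZ cYZ hW
    rw [← hPX, ← hPY, ← hPZ] at *
    by_contra hcon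
    push Not at hcon
    have kX : lX.toFinset.card * gX.natDegree ≤ (sX + 1) * gX.natDegree :=
      Nat.mul_le_mul_right _ rX.card
    have kY : lY.toFinset.card * gY.natDegree ≤ (sY + 1) * gY.natDegree :=
      Nat.mul_le_mul_right _ rY.card
    have kZ : lZ.toFinset.card * gZ.natDegree ≤ (sZ + 1) * gZ.natDegree :=
      Nat.mul_le_mul_right _ rZ.card
    obtain ⟨T, hT⟩ : ∃ T, T = (sX + 1) * gX.natDegree + (sY + 1) * gY.natDegree +
      (sZ + 1) * gZ.natDegree := ⟨_, rfl⟩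
    have t1 : lZ.length * gZ.natDegree < T := by omega
    have t2 : lY.length * gY.natDegree < T := by omega
    have t3 : lX.length * gX.natDegree < T := by omega
    have t1' : (lZ.length : ℝ) * gZ.natDegree < T := by exact_mod_cast t1
    have t2' : (lY.length : ℝ) * gY.natDegree < T := by exact_mod_cast t2
    have t3' : (lX.length : ℝ) * gX.natDegree < T := by exact_mod_cast t3
    have hT' : (T : ℝ) = (sX + 1) / lX.length * (lX.length * gX.natDegree) +
        (sY + 1) / lY.length * (lY.length * gY.natDegree) +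
        (sZ + 1) / lZ.length * (lZ.length * gZ.natDegree) := by
      rw [hT]; push_cast; field_simp
    have u1 : (0 : ℝ) < (sX + 1) / lX.length := by positivity
    have u2 : (0 : ℝ) < (sY + 1) / lY.length := by positivity
    have u3 : (0 : ℝ) < (sZ + 1) / lZ.length := by positivity
    have v1 := mul_lt_mul_of_pos_left t3' u1
    have v2 := mul_lt_mul_of_pos_left t2' u2
    have v3 := mul_lt_mul_of_pos_left t1' u3
    have hT0 : (0 : ℝ) ≤ T := Nat.cast_nonneg T
    have : ((sX + 1) / lX.length + (sY + 1) / lY.length + (sZ + 1) / lZ.length) * (T : ℝ) ≤ 1 * T :=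
      mul_le_mul_of_nonneg_right hcon hT0
    linarith

end Pool.Agent.X5.SD
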