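import Mathlib
import Pool.Agent.X5.SD.Wr

/-!
Davenport's inequality (in the strong form, with `+ 1`, without coprimality) and the inequality of
Hall for pairs of integers with small digits in a common base.
-/

set_option autoImplicit false

namespace Pool.Agent.X5.SD

open Polynomial Finset

/-- Davenport's inequality for `a f ^ 3 + b g ^ 2` -/
theorem davenport {f g : ℤ[X]} {a b : ℤ} (ha : a ≠ 0) (hb : b ≠ 0) (hf : 0 < f.natDegree)
    (hh : C a * f ^ 3 + C b * g ^ 2 ≠ 0) :
    f.natDegree + 2 ≤ 2 * (C a * f ^ 3 + C b * g ^ 2).natDegree := by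
  set h := C a * f ^ 3 + C b * g ^ 2 with hh'
  have hf0 : f ≠ 0 := ne_zero_of_natDegree_gt hf
  have d3 : (C a * f ^ 3).natDegree = 3 * f.natDegree := by
    rw [natDegree_C_mul ha, natDegree_pow]
  have d2 : (C b * g ^ 2).natDegree = 2 * g.natDegree := by
    rw [natDegree_C_mul hb, natDegree_pow]
  rcases lt_trichotomy (3 * f.natDegree) (2 * g.natDegree) with hlt | heq | hgt
  · have : h.natDegree = 2 * g.natDegree := by
      rw [hh', natDegree_add_eq_right_of_natDegree_lt (by rw [d3, d2]; exact hlt), d2]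
    omega
  · have hg0 : g ≠ 0 := by
      rintro rfl
      rw [natDegree_zero] at heq
      omega
    by_cases hU : wronskian (f ^ 3) (g ^ 2) = 0
    · have hp := wr_prop (pow_ne_zero 3 hf0) (pow_ne_zero 2 hg0) hU
      have hl : (g ^ 2).leadingCoeff ≠ 0 := leadingCoeff_ne_zero.2 (pow_ne_zero 2 hg0)
      have e1 : C (g ^ 2).leadingCoeff * h =
          C (a * (f ^ 3).leadingCoeff + b * (g ^ 2).leadingCoeff) * g ^ 2 := by
        rw [hh', C_add, C_mul, C_mul]
        linear_combination (C a) * hp
      have hc : a * (f ^ 3).leadingCoeff + b * (g ^ 2).leadingCoeff ≠ 0 := by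
        intro h0
        rw [h0, C_0, zero_mul] at e1
        exact mul_ne_zero (C_ne_zero.2 hl) hh e1
      have e2 := congrArg natDegree e1
      rw [natDegree_C_mul hl, natDegree_C_mul hc, natDegree_pow] at e2
      omega
    · -- `W(h, g ^ 2) = a W(f ^ 3, g ^ 2)`
      have e1 : f ^ 2 * (C a * (2 * f * derivative g - 3 * derivative f * g)) =
          h * (2 * derivative g) - derivative h * g := by
        rw [hh']
        simp only [derivative_add, derivative_C_mul, derivative_pow, Nat.cast_ofNat, C_ofNat]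
        ring
      have e2 : wronskian (f ^ 3) (g ^ 2) =
          f ^ 2 * g * (2 * f * derivative g - 3 * derivative f * g) := by
        simp only [wronskian, derivative_pow, Nat.cast_ofNat, C_ofNat]
        ring
      have hU' : 2 * f * derivative g - 3 * derivative f * g ≠ 0 := by
        intro h0
        apply hU
        rw [e2, h0, mul_zero]
      have hne : h * (2 * derivative g) - derivative h * g ≠ 0 := by
        rw [← e1]
        exact mul_ne_zero (pow_ne_zero 2 hf0) (mul_ne_zero (C_ne_zero.2 ha) hU')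
      have hd : (h * (2 * derivative g) - derivative h * g).natDegree + 1 ≤
          h.natDegree + g.natDegree := by
        have h1 : (h * (2 * derivative g)).natDegree ≤ h.natDegree + (g.natDegree - 1) := by
          refine natDegree_mul_le.trans (add_le_add_right ?_ _)
          refine natDegree_mul_le.trans ?_
          have := natDegree_derivative_le g
          have h2 : (2 : ℤ[X]).natDegree = 0 := natDegree_ofNat 2
          omega
        have hgpos : 0 < g.natDegree := by omega
        by_cases hh1 : h.natDegree = 0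
        · have h2 : derivative h = 0 := by
            rw [eq_C_of_natDegree_eq_zero hh1, derivative_C]
          rw [h2, zero_mul, sub_zero]
          omega
        · have h2 : (derivative h * g).natDegree ≤ (h.natDegree - 1) + g.natDegree := by
            refine natDegree_mul_le.trans (add_le_add_left ?_ _)
            exact natDegree_derivative_le h
          have h3 := natDegree_sub_le (h * (2 * derivative g)) (derivative h * g)
          have h4 := max_le_iff.1 (le_of_eq (rfl : max (h * (2 * derivative g)).natDegree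
            (derivative h * g).natDegree = _))
          omega
      rw [← e1, natDegree_mul (pow_ne_zero 2 hf0) (mul_ne_zero (C_ne_zero.2 ha) hU'),
        natDegree_pow] at hd
      omega
  · have : h.natDegree = 3 * f.natDegree := by
      rw [hh', natDegree_add_eq_left_of_natDegree_lt (by rw [d3, d2]; exact hgt), d3]
    omega

/-- pairs with small digits -/
theorem hall_pair {N H : ℤ} (hN : 4 * H ^ 3 < N) {f g F G : ℤ[X]} (hf : Dm f F) (hg : Dm g G)
    (hF : F.eval 1 ≤ H) (hG : G.eval 1 ≤ H) (hx : H < |f.eval N|)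
    (hne : (g.eval N) ^ 2 ≠ (f.eval N) ^ 3) :
    N ^ 2 * |f.eval N| ≤ 8 * H * ((g.eval N) ^ 2 - (f.eval N) ^ 3) ^ 2 := by
  have hH0 : 0 ≤ H := hf.eval_nonneg.trans hF
  have hfd : 0 < f.natDegree := by
    by_contra hcon
    have h0 : f.natDegree = 0 := by omega
    obtain ⟨c, hc⟩ : ∃ c, f = C c := ⟨f.coeff 0, eq_C_of_natDegree_eq_zero h0⟩
    have h2 := (hf.le_eval 0).trans hF
    rw [hc, coeff_C_zero] at h2
    rw [hc, eval_C] at hx
    linarith
  have hf0 : f ≠ 0 := ne_zero_of_natDegree_gt hfd
  have hH1 : 1 ≤ H := by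
    have h1 : 1 ≤ |f.coeff f.natDegree| := by
      apply Int.one_le_abs
      rw [coeff_natDegree]
      exact leadingCoeff_ne_zero.2 hf0
    exact h1.trans ((hf.le_eval _).trans hF)
  have hH3 : 1 ≤ H ^ 3 := one_le_pow₀ hH1
  have hN2 : 2 ≤ N := by linarith
  have hN0 : 0 < N := by linarith
  set h := C (1 : ℤ) * f ^ 3 + C (-1 : ℤ) * g ^ 2 with hh
  have hev : h.eval N = (f.eval N) ^ 3 - (g.eval N) ^ 2 := by
    rw [hh, eval_add, eval_mul, eval_mul, eval_C, eval_C, eval_pow, eval_pow]; ring
  have hh0 : h ≠ 0 := by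
    intro h0
    rw [h0, eval_zero] at hev
    apply hne
    linarith
  have hdm : Dm h (C 1 * F ^ 3 + C 1 * G ^ 2) :=
    Dm.add (Dm.mul (by simpa using Dm.const 1) (hf.pow 3))
      (Dm.mul (by simpa using Dm.const (-1)) (hg.pow 2))
  have hK : ∀ i, |h.coeff i| ≤ 2 * H ^ 3 := by
    intro i
    refine (hdm.le_eval i).trans ?_
    rw [eval_add, eval_mul, eval_mul, eval_C, eval_pow, eval_pow]
    have h1 : (F.eval 1) ^ 3 ≤ H ^ 3 := pow_le_pow_left₀ hf.eval_nonneg hF 3
    have h2 : (G.eval 1) ^ 2 ≤ H ^ 2 := pow_le_pow_left₀ hg.eval_nonneg hG 2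
    have h3 : H ^ 2 ≤ H ^ 3 := pow_le_pow_right₀ hH1 (by norm_num)
    linarith
  have h5 := eval_ge (N := N) hK (by linarith) hh0
  have h6 : |f.eval N| ≤ 2 * H * N ^ f.natDegree :=
    eval_le (fun i => (hf.le_eval i).trans hF) hN2
  have h7 := davenport (a := 1) (b := -1) (by norm_num) (by norm_num) hfd hh0
  rw [← hh] at h7
  have h8 : N ^ (f.natDegree + 2) ≤ (N ^ h.natDegree) ^ 2 := by
    rw [← pow_mul]
    exact pow_le_pow_right₀ (by linarith) (by omega)
  have h9 : (N ^ h.natDegree) ^ 2 ≤ (2 * |h.eval N|) ^ 2 :=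
    pow_le_pow_left₀ (by positivity) (by linarith) 2
  rw [mul_pow, sq_abs, hev] at h9
  calc N ^ 2 * |f.eval N| ≤ N ^ 2 * (2 * H * N ^ f.natDegree) :=
        mul_le_mul_of_nonneg_left h6 (by positivity)
    _ = 2 * H * N ^ (f.natDegree + 2) := by rw [pow_add]; ring
    _ ≤ 2 * H * (2 ^ 2 * ((f.eval N) ^ 3 - (g.eval N) ^ 2) ^ 2) :=
        mul_le_mul_of_nonneg_left (h8.trans h9) (by linarith)
    _ = _ := by ring

end Pool.Agent.X5.SD
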