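import Mathlib
import Pool.Agent.X5.SD.Hall

/-!
The polynomial part of the square root of an integer polynomial of even degree whose leading
coefficient is a square, with bounds for the coefficients.
-/

set_option autoImplicit false

namespace Pool.Agent.X5.SD

open Polynomial Finset

/-- the coefficients (from the top) of the square root, with denominators removed -/
noncomputable def bt (u : ℤ) (F : ℕ → ℤ) : ℕ → ℤ
  | n => u ^ (2 * n) * F (n + 1) - ∑ i : Fin n, bt u F i * bt u F (n - 1 - i)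
decreasing_by
  all_goals have := i.2
  all_goals omega

theorem bt_eq (u : ℤ) (F : ℕ → ℤ) (n : ℕ) :
    bt u F n = u ^ (2 * n) * F (n + 1) - ∑ i ∈ range n, bt u F i * bt u F (n - 1 - i) := by
  rw [bt, Finset.sum_range]

theorem bt_bound {u K M : ℤ} {F : ℕ → ℤ} (hu : u ^ 2 ≤ 4 * K) (hK : 1 ≤ K)
    (hF : ∀ i, |F i| ≤ K) (hM : 1 ≤ M) (n : ℕ) (hn : (n : ℤ) ≤ M) :
    2 * |bt u F n| ≤ (8 * K) ^ (n + 1) * M ^ n := by
  induction n using Nat.strong_induction_on with
  | _ n ih =>
    rw [bt_eq]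
    have h1 : |u ^ (2 * n) * F (n + 1)| ≤ (4 * K) ^ n * K := by
      rw [abs_mul, pow_mul, abs_of_nonneg (pow_nonneg (sq_nonneg u) n)]
      exact mul_le_mul (pow_le_pow_left₀ (sq_nonneg u) hu n) (hF _) (abs_nonneg _) (by positivity)
    have h2 : 4 * |∑ i ∈ range n, bt u F i * bt u F (n - 1 - i)| ≤
        (8 * K) ^ (n + 1) * M ^ n := by
      rcases Nat.eq_zero_or_pos n with h0 | h0
      · subst h0
        simp only [range_zero, sum_empty, abs_zero, mul_zero]
        positivity
      have h3 : ∀ i ∈ range n, 4 * |bt u F i * bt u F (n - 1 - i)| ≤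
          (8 * K) ^ (n + 1) * M ^ (n - 1) := by
        intro i hi
        rw [mem_range] at hi
        have a1 := ih i hi (by have : (i : ℤ) < n := by exact_mod_cast hi
                               linarith)
        have a2 := ih (n - 1 - i) (by omega) (by
          have : ((n - 1 - i : ℕ) : ℤ) ≤ n := by exact_mod_cast (by omega : n - 1 - i ≤ n)
          linarith)
        rw [abs_mul]
        calc 4 * (|bt u F i| * |bt u F (n - 1 - i)|)
            = (2 * |bt u F i|) * (2 * |bt u F (n - 1 - i)|) := by ring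
          _ ≤ ((8 * K) ^ (i + 1) * M ^ i) * ((8 * K) ^ (n - 1 - i + 1) * M ^ (n - 1 - i)) :=
              mul_le_mul a1 a2 (by positivity) (by positivity)
          _ = (8 * K) ^ ((i + 1) + (n - 1 - i + 1)) * M ^ (i + (n - 1 - i)) := by
              rw [pow_add _ (i + 1), pow_add _ i]; ring
          _ = (8 * K) ^ (n + 1) * M ^ (n - 1) := by
              congr 2 <;> omega
      calc 4 * |∑ i ∈ range n, bt u F i * bt u F (n - 1 - i)|
          ≤ 4 * ∑ i ∈ range n, |bt u F i * bt u F (n - 1 - i)| :=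
            mul_le_mul_of_nonneg_left (abs_sum_le_sum_abs _ _) (by norm_num)
        _ = ∑ i ∈ range n, 4 * |bt u F i * bt u F (n - 1 - i)| := by rw [mul_sum]
        _ ≤ ∑ i ∈ range n, (8 * K) ^ (n + 1) * M ^ (n - 1) := sum_le_sum h3
        _ = (n : ℤ) * ((8 * K) ^ (n + 1) * M ^ (n - 1)) := by
            rw [sum_const, card_range, nsmul_eq_mul]
        _ ≤ M * ((8 * K) ^ (n + 1) * M ^ (n - 1)) :=
            mul_le_mul_of_nonneg_right hn (by positivity)
        _ = (8 * K) ^ (n + 1) * M ^ n := by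
            obtain ⟨k, rfl⟩ : ∃ k, n = k + 1 := ⟨n - 1, by omega⟩
            rw [Nat.add_sub_cancel, pow_succ M k]; ring
    have h4 : 4 * ((4 * K) ^ n * K) ≤ (8 * K) ^ (n + 1) * M ^ n := by
      calc 4 * ((4 * K) ^ n * K) = (4 * K) ^ (n + 1) := by ring
        _ ≤ (8 * K) ^ (n + 1) := pow_le_pow_left₀ (by linarith) (by linarith) _
        _ ≤ (8 * K) ^ (n + 1) * M ^ n :=
            le_mul_of_one_le_right (by positivity) (one_le_pow₀ hM)
    have h5 := abs_sub (u ^ (2 * n) * F (n + 1)) (∑ i ∈ range n, bt u F i * bt u F (n - 1 - i))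
    linarith

/-- the coefficients of the root, from the top -/
noncomputable def gc (e : ℤ) (M : ℕ) (F : ℕ → ℤ) : ℕ → ℤ
  | 0 => (2 * e) ^ (2 * M) * e
  | k + 1 => if k + 1 ≤ M then (2 * e) ^ (2 * (M - (k + 1)) + 1) * bt (2 * e) F k else 0

theorem gc_sq (e : ℤ) (M : ℕ) (F : ℕ → ℤ) (hF0 : F 0 = e ^ 2) (k : ℕ) (hk : k ≤ M) :
    ∑ i ∈ range (k + 1), gc e M F i * gc e M F (k - i) = (2 * e) ^ (4 * M) * F k := by
  cases k with
  | zero =>
    simp only [zero_add, range_one, sum_singleton, Nat.sub_zero, gc, hF0]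
    ring
  | succ n =>
    rw [sum_range_succ, sum_range_succ']
    have h1 : ∑ i ∈ range n, gc e M F (i + 1) * gc e M F (n + 1 - (i + 1)) =
        (2 * e) ^ (4 * M - 2 * n) * ∑ i ∈ range n, bt (2 * e) F i * bt (2 * e) F (n - 1 - i) := by
      rw [mul_sum]
      refine sum_congr rfl fun i hi => ?_
      rw [mem_range] at hi
      obtain ⟨j, hj⟩ : ∃ j, n + 1 - (i + 1) = j + 1 := ⟨n - 1 - i, by omega⟩
      have hj' : n - 1 - i = j := by omega
      rw [hj, hj']
      simp only [gc]
      rw [if_pos (by omega), if_pos (by omega)]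
      have e1 : 4 * M - 2 * n = (2 * (M - (i + 1)) + 1) + (2 * (M - (j + 1)) + 1) := by omega
      rw [e1, pow_add]
      ring
    have h2 : gc e M F (n + 1) * gc e M F (n + 1 - (n + 1)) =
        e * (2 * e) ^ (4 * M - 2 * n - 1) * bt (2 * e) F n := by
      rw [Nat.sub_self]
      simp only [gc]
      rw [if_pos hk]
      have e1 : 4 * M - 2 * n - 1 = (2 * (M - (n + 1)) + 1) + 2 * M := by omega
      rw [e1, pow_add]
      ring
    have h3 : gc e M F 0 * gc e M F (n + 1 - 0) =
        e * (2 * e) ^ (4 * M - 2 * n - 1) * bt (2 * e) F n := by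
      rw [Nat.sub_zero]
      simp only [gc]
      rw [if_pos hk]
      have e1 : 4 * M - 2 * n - 1 = (2 * (M - (n + 1)) + 1) + 2 * M := by omega
      rw [e1, pow_add]
      ring
    rw [h1, h2, h3]
    have e2 : (2 * e) ^ (4 * M - 2 * n) = (2 * e) * (2 * e) ^ (4 * M - 2 * n - 1) := by
      rw [← pow_succ']
      congr 1
      omega
    have e3 : (2 * e) ^ (4 * M) = (2 * e) ^ (4 * M - 2 * n) * (2 * e) ^ (2 * n) := by
      rw [← pow_add]
      congr 1
      omega
    have e4 := bt_eq (2 * e) F n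
    have e5 : (2 * e) ^ (4 * M) * F (n + 1) = (2 * e) ^ (4 * M - 2 * n) * (bt (2 * e) F n +
        ∑ i ∈ range n, bt (2 * e) F i * bt (2 * e) F (n - 1 - i)) := by
      rw [e3, e4]; ring
    rw [e5, e2]
    ring

/-- the root -/
noncomputable def sq (e : ℤ) (M : ℕ) (F : ℕ → ℤ) : ℤ[X] :=
  ∑ i ∈ range (M + 1), C (gc e M F i) * X ^ (M - i)

theorem sq_coeff (e : ℤ) (M : ℕ) (F : ℕ → ℤ) (i : ℕ) (hi : i ≤ M) :
    (sq e M F).coeff (M - i) = gc e M F i := by
  rw [sq, finsetSum_coeff]
  rw [Finset.sum_eq_single i]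
  · rw [coeff_C_mul_X_pow, if_pos rfl]
  · intro j hj hne
    rw [mem_range] at hj
    rw [coeff_C_mul_X_pow, if_neg (by omega)]
  · intro h
    rw [mem_range] at h
    omega

theorem sq_natDegree_le (e : ℤ) (M : ℕ) (F : ℕ → ℤ) : (sq e M F).natDegree ≤ M := by
  refine natDegree_sum_le_of_forall_le _ _ fun i _ => ?_
  exact (natDegree_C_mul_X_pow_le _ _).trans (Nat.sub_le _ _)

theorem sq_sq_coeff (e : ℤ) (M : ℕ) (F : ℕ → ℤ) (hF0 : F 0 = e ^ 2) (k : ℕ) (hk : k ≤ M) :
    ((sq e M F) ^ 2).coeff (2 * M - k) = (2 * e) ^ (4 * M) * F k := by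
  have h1 := reflect_mul (sq e M F) (sq e M F) (sq_natDegree_le e M F) (sq_natDegree_le e M F)
  have h2 := congrArg (fun p => coeff p k) h1
  simp only [coeff_reflect] at h2
  rw [revAt_le (by omega), ← pow_two] at h2
  rw [show 2 * M - k = M + M - k by omega, h2, coeff_mul,
    Finset.Nat.sum_antidiagonal_eq_sum_range_succ (fun i j => coeff (reflect M (sq e M F)) i *
      coeff (reflect M (sq e M F)) j), ← gc_sq e M F hF0 k hk]
  refine sum_congr rfl fun i hi => ?_
  rw [mem_range] at hi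
  rw [coeff_reflect, coeff_reflect, revAt_le (by omega), revAt_le (by omega),
    sq_coeff e M F i (by omega), sq_coeff e M F (k - i) (by omega)]

end Pool.Agent.X5.SD
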