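import Mathlib
import Pool.Agent.X5.SD.Sqrt

/-!
The inequality of Hall for all `y`, when `x` has small digits in a large base, an odd number of
digits, and a square as leading digit.
-/

set_option autoImplicit false

namespace Pool.Agent.X5.SD

open Polynomial Finset

theorem gc_bound {e K M : ℤ} {m : ℕ} {F : ℕ → ℤ} (hM : M = m) (hm : 1 ≤ m) (he : e ^ 2 ≤ K)
    (hK : 1 ≤ K) (hF : ∀ i, |F i| ≤ K) (i : ℕ) : |gc e m F i| ≤ (8 * K * M) ^ (m + 1) := by
  have hM1 : 1 ≤ M := by rw [hM]; exact_mod_cast hm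
  have hK0 : 0 < K := by linarith
  have hKM : K ≤ K * M := le_mul_of_one_le_right hK0.le hM1
  have hR4 : 4 * K ≤ 8 * K * M := by nlinarith
  have hR1 : 1 ≤ 8 * K * M := by linarith
  have heK : |e| ≤ K := by
    have h1 : |e| ≤ e ^ 2 := by
      rw [← sq_abs]
      rcases eq_or_ne e 0 with h | h
      · simp [h]
      · exact le_self_pow₀ (Int.one_le_abs h) (by norm_num)
    exact h1.trans he
  have hpw : ∀ k : ℕ, |(2 * e) ^ (2 * k)| ≤ (8 * K * M) ^ k := by
    intro k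
    rw [pow_mul, abs_of_nonneg (pow_nonneg (sq_nonneg _) k)]
    exact pow_le_pow_left₀ (sq_nonneg _) (by nlinarith) k
  have h2e : |2 * e| ≤ 8 * K * M := by
    rw [abs_mul, abs_two]
    linarith
  cases i with
  | zero =>
    simp only [gc]
    rw [abs_mul, pow_succ]
    exact mul_le_mul (hpw m) (by linarith) (abs_nonneg _) (by positivity)
  | succ k =>
    simp only [gc]
    split_ifs with hk
    · have hb := bt_bound (u := 2 * e) (K := K) (M := M) (F := F) (by nlinarith) hK hF hM1 k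
        (by rw [hM]; exact_mod_cast (by omega : k ≤ m))
      have hb' : |bt (2 * e) F k| ≤ (8 * K * M) ^ (k + 1) := by
        have h1 : (8 * K) ^ (k + 1) * M ^ k ≤ (8 * K * M) ^ (k + 1) := by
          rw [mul_pow (8 * K) M (k + 1)]
          exact mul_le_mul_of_nonneg_left (pow_le_pow_right₀ hM1 (by omega)) (by positivity)
        have h2 := abs_nonneg (bt (2 * e) F k)
        linarith
      rw [abs_mul, pow_succ, abs_mul]
      calc |(2 * e) ^ (2 * (m - (k + 1)))| * |2 * e| * |bt (2 * e) F k|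
          ≤ (8 * K * M) ^ (m - (k + 1)) * (8 * K * M) * (8 * K * M) ^ (k + 1) :=
            mul_le_mul (mul_le_mul (hpw _) h2e (abs_nonneg _) (by positivity)) hb' (abs_nonneg _)
              (by positivity)
        _ = (8 * K * M) ^ (m - (k + 1) + 1 + (k + 1)) := by
            rw [pow_add _ _ (k + 1), pow_succ _ (m - (k + 1))]
        _ = (8 * K * M) ^ (m + 1) := by
            congr 1
            omega
    · rw [abs_zero]
      positivity

theorem hall_all {N H c : ℤ} {m : ℕ} (hm : 1 ≤ m) (hc : 1 ≤ c) {f F : ℤ[X]} (hf : Dm f F)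
    (hF : F.eval 1 ≤ H) (hfd : f.natDegree = 2 * m) (hlc : f.leadingCoeff = c ^ 2)
    (hN : (24 * m * H ^ 3) ^ (6 * m + 6) ≤ N) (y : ℤ) (hne : y ^ 2 ≠ (f.eval N) ^ 3) :
    N ^ 2 * |f.eval N| ≤ 32 * H * (2 * c ^ 3) ^ (24 * m) * (y ^ 2 - (f.eval N) ^ 3) ^ 2 := by
  obtain ⟨e, he⟩ : ∃ e, e = c ^ 3 := ⟨_, rfl⟩
  obtain ⟨K, hK⟩ : ∃ K, K = H ^ 3 := ⟨_, rfl⟩
  have hm1 : (1 : ℤ) ≤ m := by exact_mod_cast hm
  have hc2H : c ^ 2 ≤ H := by
    have h1 := (hf.le_eval f.natDegree).trans hF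
    rw [coeff_natDegree, hlc] at h1
    exact (le_abs_self _).trans h1
  have hH1 : 1 ≤ H := (one_le_pow₀ hc).trans hc2H
  have hK1 : 1 ≤ K := by rw [hK]; exact one_le_pow₀ hH1
  have he1 : 1 ≤ e := by rw [he]; exact one_le_pow₀ hc
  have he2 : e ^ 2 ≤ K := by
    rw [he, hK]
    calc (c ^ 3) ^ 2 = (c ^ 2) ^ 3 := by ring
      _ ≤ H ^ 3 := pow_le_pow_left₀ (by positivity) hc2H 3
  have hf0 : f ≠ 0 := ne_zero_of_natDegree_gt (n := 0) (by omega)
  -- the coefficients of the cube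
  obtain ⟨Φ, hΦ⟩ : ∃ Φ : ℕ → ℤ, Φ = fun k => (f ^ 3).coeff (2 * (3 * m) - k) := ⟨_, rfl⟩
  have hd3 : (f ^ 3).natDegree = 2 * (3 * m) := by rw [natDegree_pow, hfd]; ring
  have hΦ0 : Φ 0 = e ^ 2 := by
    rw [hΦ]
    simp only [Nat.sub_zero]
    rw [← hd3, coeff_natDegree, leadingCoeff_pow, hlc, he]
    ring
  have hcub : ∀ i, |(f ^ 3).coeff i| ≤ K := by
    intro i
    refine ((hf.pow 3).le_eval i).trans ?_
    rw [eval_pow, hK]
    exact pow_le_pow_left₀ hf.eval_nonneg hF 3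
  have hΦK : ∀ i, |Φ i| ≤ K := by
    intro i
    rw [hΦ]
    exact hcub _
  -- the constants
  obtain ⟨M, hM⟩ : ∃ M : ℤ, M = ((3 * m : ℕ) : ℤ) := ⟨_, rfl⟩
  obtain ⟨R, hR⟩ : ∃ R, R = 8 * K * M := ⟨_, rfl⟩
  have hM3 : M = 3 * m := by rw [hM]; push_cast; ring
  have hRN : R ^ (2 * (3 * m) + 6) ≤ N := by
    have h1 : R = 24 * m * H ^ 3 := by rw [hR, hM3, hK]; ring
    rw [h1, show 2 * (3 * m) + 6 = 6 * m + 6 by ring]
    exact hN
  have hKM : K ≤ K * M := le_mul_of_one_le_right (by linarith) (by rw [hM3]; linarith)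
  have hMK : M ≤ K * M := le_mul_of_one_le_left (by rw [hM3]; positivity) hK1
  have hR8 : 8 ≤ R := by rw [hR]; nlinarith
  have hR0 : 0 < R := by linarith
  have hRK : K ≤ R := by rw [hR]; nlinarith
  have hRM : M + 1 ≤ R := by rw [hR]; nlinarith
  obtain ⟨q, hq⟩ : ∃ q, q = (2 * e) ^ (2 * (3 * m)) := ⟨_, rfl⟩
  have hq0 : 0 < q := by rw [hq]; positivity
  have hq2 : q ^ 2 = (2 * e) ^ (4 * (3 * m)) := by rw [hq, ← pow_mul]; congr 1; ring
  have hq4 : q ^ 4 = (2 * c ^ 3) ^ (24 * m) := by rw [hq, he, ← pow_mul]; congr 1; ring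
  have hq2R : q ^ 2 ≤ R ^ (2 * (3 * m)) := by
    rw [hq2, show 4 * (3 * m) = 2 * (2 * (3 * m)) by ring, pow_mul]
    refine pow_le_pow_left₀ (by positivity) ?_ _
    rw [hR]
    nlinarith
  -- the root
  obtain ⟨G, hG⟩ : ∃ G, G = sq e (3 * m) Φ := ⟨_, rfl⟩
  obtain ⟨G', hG'⟩ : ∃ G' : ℤ[X], G' = ∑ i ∈ range (3 * m + 1), C |gc e (3 * m) Φ i| * X ^ (3 * m - i) :=
    ⟨_, rfl⟩
  have hdG : Dm G G' := by
    rw [hG, hG', sq]
    exact Dm.sum _ fun i _ => Dm.monomial _ _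
  have hG'1 : G'.eval 1 ≤ R ^ (3 * m + 2) := by
    rw [hG', eval_finsetSum]
    simp only [eval_mul, eval_C, eval_pow, eval_X, one_pow, mul_one]
    calc ∑ i ∈ range (3 * m + 1), |gc e (3 * m) Φ i|
        ≤ ∑ i ∈ range (3 * m + 1), R ^ (3 * m + 1) := by
          refine sum_le_sum fun i _ => ?_
          rw [hR]
          exact gc_bound hM (by omega) he2 hK1 hΦK i
      _ = (M + 1) * R ^ (3 * m + 1) := by
          rw [sum_const, card_range, nsmul_eq_mul, hM]; push_cast; ring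
      _ ≤ R * R ^ (3 * m + 1) := mul_le_mul_of_nonneg_right hRM (by positivity)
      _ = R ^ (3 * m + 2) := by rw [pow_succ' R (3 * m + 1)]
  have hGc : G.coeff (3 * m) = q * e := by
    rw [hG]
    have := sq_coeff e (3 * m) Φ 0 (Nat.zero_le _)
    rw [Nat.sub_zero] at this
    rw [this, hq]
    rfl
  have hGd : G.natDegree = 3 * m := by
    apply le_antisymm
    · rw [hG]; exact sq_natDegree_le _ _ _
    · apply le_natDegree_of_ne_zero
      rw [hGc]
      positivity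
  have hG0 : G ≠ 0 := ne_zero_of_natDegree_gt (n := 0) (by omega)
  have hR1 : 1 ≤ R := by linarith
  have pwR : ∀ a b : ℕ, a ≤ b → R ^ a ≤ R ^ b := fun a b h => pow_le_pow_right₀ hR1 h
  have hRN1 : 64 * R ^ (2 * (3 * m) + 4) ≤ N := by
    refine le_trans ?_ hRN
    have h1 : R ^ (2 * (3 * m) + 6) = R ^ 2 * R ^ (2 * (3 * m) + 4) := by
      rw [← pow_add]; congr 1; ring
    rw [h1]
    have h2 : 64 ≤ R ^ 2 := by nlinarith
    exact mul_le_mul_of_nonneg_right h2 (by positivity)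
  have hRpos : 1 ≤ R ^ (2 * (3 * m) + 4) := one_le_pow₀ hR1
  have hN2 : 2 ≤ N := by linarith
  have hN0 : 0 < N := by linarith
  have hGN : N ^ (3 * m) + 1 ≤ 2 * |G.eval N| := by
    have h1 := eval_ge (N := N) (K := R ^ (3 * m + 2)) (fun i => (hdG.le_eval i).trans hG'1) (by
      have h2 := pwR (3 * m + 2) (2 * (3 * m) + 4) (by omega)
      linarith) hG0
    rw [hGd] at h1
    exact h1
  -- the difference
  set h := C (q ^ 2) * f ^ 3 + C (-1 : ℤ) * G ^ 2 with hh
  have hev : h.eval N = q ^ 2 * (f.eval N) ^ 3 - (G.eval N) ^ 2 := by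
    rw [hh, eval_add, eval_mul, eval_mul, eval_C, eval_C, eval_pow, eval_pow]; ring
  have hhd : h.natDegree ≤ 3 * m - 1 := by
    rw [natDegree_le_iff_coeff_eq_zero]
    intro j hj
    have hj' : 3 * m ≤ j := by omega
    rw [hh, coeff_add, coeff_C_mul, coeff_C_mul]
    rcases Nat.lt_or_ge (2 * (3 * m)) j with h1 | h1
    · rw [coeff_eq_zero_of_natDegree_lt (by rw [hd3]; exact h1),
        coeff_eq_zero_of_natDegree_lt (by rw [natDegree_pow, hGd]; exact h1)]
      ring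
    · obtain ⟨k, hk⟩ : ∃ k, j = 2 * (3 * m) - k := ⟨2 * (3 * m) - j, by omega⟩
      have hk' : k ≤ 3 * m ∨ j = 2 * (3 * m) - 0 := by omega
      have key : ∀ k ≤ 3 * m, q ^ 2 * (f ^ 3).coeff (2 * (3 * m) - k) +
          -1 * (G ^ 2).coeff (2 * (3 * m) - k) = 0 := by
        intro k hk
        rw [hG, sq_sq_coeff e (3 * m) Φ hΦ0 k hk, hq2, hΦ]
        ring
      rcases hk' with h2 | h2
      · rw [hk]; exact key k h2
      · rw [h2]; exact key 0 (Nat.zero_le _)
  have hhK : ∀ i, |h.coeff i| ≤ 2 * R ^ (2 * (3 * m) + 4) := by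
    intro i
    have hdm : Dm h (C |q ^ 2| * F ^ 3 + C |(-1 : ℤ)| * G' ^ 2) :=
      Dm.add (Dm.mul (Dm.const _) (hf.pow 3)) (Dm.mul (Dm.const _) (hdG.pow 2))
    refine (hdm.le_eval i).trans ?_
    rw [eval_add, eval_mul, eval_mul, eval_C, eval_C, eval_pow, eval_pow, abs_neg, abs_one,
      abs_of_nonneg (sq_nonneg q), one_mul]
    have h1 : (F.eval 1) ^ 3 ≤ K := by
      rw [hK]; exact pow_le_pow_left₀ hf.eval_nonneg hF 3
    have h2 : (G'.eval 1) ^ 2 ≤ (R ^ (3 * m + 2)) ^ 2 :=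
      pow_le_pow_left₀ hdG.eval_nonneg hG'1 2
    have h3 : (R ^ (3 * m + 2)) ^ 2 = R ^ (2 * (3 * m) + 4) := by
      rw [← pow_mul]; congr 1; ring
    have h4 : q ^ 2 * (F.eval 1) ^ 3 ≤ R ^ (2 * (3 * m)) * R :=
      mul_le_mul hq2R (h1.trans hRK) (pow_nonneg hf.eval_nonneg 3) (by positivity)
    have h5 : R ^ (2 * (3 * m)) * R ≤ R ^ (2 * (3 * m) + 4) := by
      rw [← pow_succ]
      exact pwR _ _ (by omega)
    rw [h3] at h2
    linarith
  have hhN : 16 * |h.eval N| ≤ N ^ (3 * m) := by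
    have h1 := eval_le hhK hN2
    have h2 : N ^ h.natDegree ≤ N ^ (3 * m - 1) := pow_le_pow_right₀ (by linarith) hhd
    have h3 : N ^ (3 * m) = N * N ^ (3 * m - 1) := by
      rw [← pow_succ']; congr 1; omega
    have h4 : 0 < N ^ (3 * m - 1) := by positivity
    calc 16 * |h.eval N| ≤ 16 * (2 * (2 * R ^ (2 * (3 * m) + 4)) * N ^ h.natDegree) := by linarith
      _ ≤ 16 * (2 * (2 * R ^ (2 * (3 * m) + 4)) * N ^ (3 * m - 1)) := by
          apply mul_le_mul_of_nonneg_left _ (by norm_num)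
          exact mul_le_mul_of_nonneg_left h2 (by positivity)
      _ = (64 * R ^ (2 * (3 * m) + 4)) * N ^ (3 * m - 1) := by ring
      _ ≤ N * N ^ (3 * m - 1) := mul_le_mul_of_nonneg_right hRN1 h4.le
      _ = _ := h3.symm
  -- the two cases
  obtain ⟨D, hD⟩ : ∃ D, D = y ^ 2 - (f.eval N) ^ 3 := ⟨_, rfl⟩
  have hD0 : D ≠ 0 := by rw [hD]; exact sub_ne_zero.2 hne
  have hid : (q * y) ^ 2 - (G.eval N) ^ 2 = q ^ 2 * D + h.eval N := by
    rw [hev, hD]; ring
  have hmain : N ^ (m + 1) ≤ 4 * (q ^ 2 * |D|) := by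
    by_cases hcase : |q * y| = |G.eval N|
    · have h1 : (q * y) ^ 2 = (G.eval N) ^ 2 := by rw [← sq_abs, hcase, sq_abs]
      have h2 : h.eval N = -(q ^ 2 * D) := by
        have h2' : q ^ 2 * D + h.eval N = 0 := by rw [← hid, h1, sub_self]
        linarith
      have hh0 : h ≠ 0 := by
        intro h0
        rw [h0, eval_zero] at h2
        have : q ^ 2 * D ≠ 0 := mul_ne_zero (by positivity) hD0
        apply this
        linarith
      have h3 := davenport (f := f) (g := G) (a := q ^ 2) (b := -1) (by positivity) (by norm_num)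
        (by omega) hh0
      rw [← hh, hfd] at h3
      have h4 := eval_ge (N := N) hhK (by linarith) hh0
      have h5 : N ^ (m + 1) ≤ N ^ h.natDegree := pow_le_pow_right₀ (by linarith) (by omega)
      rw [h2, abs_neg, abs_mul, abs_of_nonneg (sq_nonneg q)] at h4
      have h6 : 0 ≤ q ^ 2 * |D| := by positivity
      linarith
    · have h1 : |G.eval N| ≤ |(q * y) ^ 2 - (G.eval N) ^ 2| := by
        have h2 : (q * y) ^ 2 - (G.eval N) ^ 2 =
            (|q * y| - |G.eval N|) * (|q * y| + |G.eval N|) := by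
          rw [← sq_abs (q * y), ← sq_abs (G.eval N)]; ring
        rw [h2, abs_mul]
        have h3 : 1 ≤ abs (abs (q * y) - abs (G.eval N)) := Int.one_le_abs (sub_ne_zero.2 hcase)
        have h4 : abs (G.eval N) ≤ abs (abs (q * y) + abs (G.eval N)) := by
          rw [abs_of_nonneg (add_nonneg (abs_nonneg (q * y)) (abs_nonneg (G.eval N)))]
          linarith [abs_nonneg (q * y)]
        calc abs (G.eval N) ≤ abs (abs (q * y) + abs (G.eval N)) := h4
          _ ≤ _ := le_mul_of_one_le_left (abs_nonneg _) h3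
      rw [hid] at h1
      have h2 := abs_add_le (q ^ 2 * D) (h.eval N)
      rw [abs_mul, abs_of_nonneg (sq_nonneg q)] at h2
      have h5 : N ^ (m + 1) ≤ N ^ (3 * m) := pow_le_pow_right₀ (by linarith) (by omega)
      have h6 : 0 < N ^ (3 * m) := by positivity
      linarith
  -- conclusion
  have hx : |f.eval N| ≤ 2 * H * N ^ (2 * m) := by
    have := eval_le (N := N) (K := H) (fun i => (hf.le_eval i).trans hF) hN2
    rwa [hfd] at this
  have hsq : (N ^ (m + 1)) ^ 2 ≤ (4 * (q ^ 2 * |D|)) ^ 2 :=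
    pow_le_pow_left₀ (by positivity) hmain 2
  calc N ^ 2 * |f.eval N| ≤ N ^ 2 * (2 * H * N ^ (2 * m)) :=
        mul_le_mul_of_nonneg_left hx (by positivity)
    _ = 2 * H * (N ^ (m + 1)) ^ 2 := by
        rw [← pow_mul, show (m + 1) * 2 = 2 + 2 * m by ring, pow_add]; ring
    _ ≤ 2 * H * (4 * (q ^ 2 * |D|)) ^ 2 := mul_le_mul_of_nonneg_left hsq (by linarith)
    _ = 32 * H * q ^ 4 * |D| ^ 2 := by ring
    _ = _ := by rw [sq_abs, hq4, hD]

end Pool.Agent.X5.SD
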